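import Pool.Agent.KS6_43.AF.R
import Pool.Agent.KS6_43.AF.A
import Pool.Graph.R_pool_sql_team_seeded_64922ed1.Results.MP_af3a77_al.NotFinitelyGenerated

/-!
# For which orders of `H` does finite generation fail?

In setting (R) it fails for cyclic subgroups of every order `N ≥ 2`. In setting (A) it holds for
all subgroups of prime order (in arbitrary groups), and it fails for a subgroup of order four.
So the least order of a subgroup `H` for which the monoid of restrictions is not finitely generated
is `2` in setting (R) and `4` in setting (A).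

The definitions of `FinGenR` and `FinGenA` are those of the library module
`MP_af3a77_al.NotFinitelyGenerated`.
-/

set_option autoImplicit false

namespace Pool.Agent.Results.MP_af3a77_al.SharpOrders

open NotFinitelyGenerated (FinGenR FinGenA)

/-- the trivial subgroup -/
lemma finGenA_of_card_one {G : Type} [Group G] (H : Subgroup G) (hH : Nat.card H = 1) :
    FinGenA G H := by
  have hbot : H = ⊥ := Subgroup.eq_bot_of_card_eq H hH
  subst hbot
  have h : Pool.Agent.KS6_43.AF.FinGenA (⊥ : Subgroup G) := by
    refine ⟨1, fun _ => 1, fun _ => 1, fun n ψ => ⟨fun _ => n, ?_⟩⟩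
    refine Pool.Agent.KS6_43.AF.iso_of_sums Nat.prime_two (1 : G) (one_pow _) bot_le
      (fun _ : Fin 1 => 1) (fun _ => 1) ψ (fun _ => n) ?_ ?_
    · simp
    · simp
  exact h

lemma finGenA_of_prime {G : Type} [Group G] (H : Subgroup G) (hH : (Nat.card H).Prime) :
    FinGenA G H := Pool.Agent.KS6_43.AF.finGenA_of_prime H hH

/-- the example of order four -/
lemma four : ∃ (G : Type) (_ : Group G) (H : Subgroup G),
    Group.IsFinitelyPresented G ∧ Nat.card H = 4 ∧ ¬ FinGenR G H ∧ ¬ FinGenA G H := by
  have hA := NotFinitelyGenerated.not_finGenA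
  refine ⟨NotFinitelyGenerated.Gam, inferInstance, NotFinitelyGenerated.H, ?_, ?_,
    NotFinitelyGenerated.not_finGenR, hA⟩
  · have : Finite NotFinitelyGenerated.rels := by
      have h1 : NotFinitelyGenerated.rels.Finite := by
        unfold NotFinitelyGenerated.rels
        exact Set.toFinite _
      exact h1
    infer_instance
  · have hfin : Finite NotFinitelyGenerated.H := NotFinitelyGenerated.finiteH
    have h1 : Nat.card NotFinitelyGenerated.H ≤ 4 := by
      have h2 : (NotFinitelyGenerated.H : Set NotFinitelyGenerated.Gam) =
          {1, NotFinitelyGenerated.h, NotFinitelyGenerated.h',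
            NotFinitelyGenerated.h * NotFinitelyGenerated.h'} := rfl
      have h3 : Nat.card NotFinitelyGenerated.H =
          (NotFinitelyGenerated.H : Set NotFinitelyGenerated.Gam).ncard := rfl
      rw [h3, h2]
      have h4 := Set.ncard_insert_le (1 : NotFinitelyGenerated.Gam)
        {NotFinitelyGenerated.h, NotFinitelyGenerated.h',
          NotFinitelyGenerated.h * NotFinitelyGenerated.h'}
      have h5 := Set.ncard_insert_le NotFinitelyGenerated.h
        {NotFinitelyGenerated.h', NotFinitelyGenerated.h * NotFinitelyGenerated.h'}
      have h6 := Set.ncard_insert_le NotFinitelyGenerated.h'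
        {NotFinitelyGenerated.h * NotFinitelyGenerated.h'}
      rw [Set.ncard_singleton] at h6
      omega
    have h0 : 0 < Nat.card NotFinitelyGenerated.H := Nat.card_pos
    have e1 : Nat.card NotFinitelyGenerated.H ≠ 1 := fun h => hA (finGenA_of_card_one _ h)
    have e2 : Nat.card NotFinitelyGenerated.H ≠ 2 := fun h =>
      hA (finGenA_of_prime _ (by rw [h]; norm_num))
    have e3 : Nat.card NotFinitelyGenerated.H ≠ 3 := fun h =>
      hA (finGenA_of_prime _ (by rw [h]; norm_num))
    omega

/-- **Orders of the subgroup.**
(1) Setting (R): for every `N ≥ 2` there are a finitely presented group `G` and a cyclic subgroup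
`H` of order `N` for which the monoid of restrictions is not finitely generated.
(2) Setting (A): for every group `G` and every subgroup `H` of prime order the monoid of
restrictions is finitely generated.
(3) There are a finitely presented group `G` and a subgroup `H` of order `4` for which neither
monoid is finitely generated.
(4) In setting (A) finite generation fails for no subgroup of order less than `4`. -/
theorem result :
    (∀ N : ℕ, 2 ≤ N → ∃ (G : Type) (_ : Group G) (H : Subgroup G),
      Group.IsFinitelyPresented G ∧ IsCyclic H ∧ Nat.card H = N ∧ ¬ FinGenR G H) ∧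
    (∀ (G : Type) [Group G] (H : Subgroup G), (Nat.card H).Prime → FinGenA G H) ∧
    (∃ (G : Type) (_ : Group G) (H : Subgroup G),
      Group.IsFinitelyPresented G ∧ Nat.card H = 4 ∧ ¬ FinGenR G H ∧ ¬ FinGenA G H) ∧
    (∀ (G : Type) [Group G] (H : Subgroup G), Finite H → ¬ FinGenA G H → 4 ≤ Nat.card H) := by
  refine ⟨fun N hN => ⟨Pool.Agent.KS6_43.AF.Gam N, inferInstance, Pool.Agent.KS6_43.AF.H N,
    inferInstance,
    (inferInstance : IsCyclic (Subgroup.zpowers (Pool.Agent.KS6_43.AF.z N))),
    (Nat.card_zpowers _).trans (Pool.Agent.KS6_43.AF.orderOf_z N hN),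
    fun h => Pool.Agent.KS6_43.AF.not_finGenR N hN (NotFinitelyGenerated.finGenR' h)⟩,
    fun G _ H hH => finGenA_of_prime H hH, four, ?_⟩
  intro G _ H hfin hA
  by_contra hlt
  have h0 : 0 < Nat.card H := Nat.card_pos
  have h1 : Nat.card H = 1 ∨ Nat.card H = 2 ∨ Nat.card H = 3 := by omega
  rcases h1 with h | h | h
  · exact hA (finGenA_of_card_one H h)
  · exact hA (finGenA_of_prime H (by rw [h]; norm_num))
  · exact hA (finGenA_of_prime H (by rw [h]; norm_num))

end Pool.Agent.Results.MP_af3a77_al.SharpOrders
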